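import Pool.Agent.H798.BV.Stm3
import Pool.Agent.H25.BV.Avp

/-! Project BV (helper798), task B3-AVQ (helper263): `∑ χ_p(w_k) = O(m a^β)` for all dual exponents; a
generalisation of `Pool/Agent/H25/BV/Avp.lean` of helper25. -/

set_option autoImplicit false

namespace Pool.Agent.H263.BV

open Pool.Agent.H798.BV
open Pool.Agent.H25.BV (breg_nonneg norm_chi rpow_le_one_add)
open scoped ComplexConjugate

theorem norm_rpow_le' {p a : ℝ} (hp : 0 ≤ p) (ha0 : 0 ≤ a) (ha : a ≤ 1) (z : ℂ) :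
    ‖z‖ ^ p ≤ 2 ^ p * (‖z - a‖ ^ p + 1) := by
  have h1 : ‖z‖ ≤ ‖z - a‖ + 1 := by
    calc ‖z‖ = ‖(z - a) + a‖ := by rw [sub_add_cancel]
      _ ≤ ‖z - a‖ + ‖(a : ℂ)‖ := norm_add_le _ _
      _ ≤ ‖z - a‖ + 1 := by
        rw [Complex.norm_real, Real.norm_of_nonneg ha0]
        linarith
  have h2 : ‖z‖ ≤ 2 * max ‖z - a‖ 1 := by
    have := le_max_left ‖z - a‖ 1
    have := le_max_right ‖z - a‖ 1
    linarith
  have hm0 : 0 ≤ max ‖z - a‖ 1 := le_max_of_le_right zero_le_one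
  have h3 : ‖z‖ ^ p ≤ 2 ^ p * (max ‖z - a‖ 1) ^ p := by
    rw [← Real.mul_rpow (by norm_num) hm0]
    exact Real.rpow_le_rpow (norm_nonneg _) h2 hp
  have h5 : (max ‖z - a‖ 1) ^ p ≤ ‖z - a‖ ^ p + 1 := by
    rcases le_total ‖z - a‖ 1 with h | h
    · rw [max_eq_right h, Real.one_rpow]
      have := Real.rpow_nonneg (norm_nonneg (z - a)) p
      linarith
    · rw [max_eq_left h]
      linarith
  exact h3.trans (mul_le_mul_of_nonneg_left h5 (Real.rpow_nonneg (by norm_num) _))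

theorem t_AVQ (h1 : S_PM) (h2 : S_B2Q) (h3 : S_MOM) (h4 : S_BDQ) (h5 : S_PTQ) : S_AVQ := by
  intro p s hp1 hs1
  obtain ⟨K1, hK1, hBD⟩ := h4 p hp1
  obtain ⟨K2, hK2, hPT⟩ := h5 p s hp1 hs1 1 one_pos
  obtain ⟨K3, hK3, hMO⟩ := h3 p hp1
  obtain ⟨E, hE⟩ : ∃ E : ℝ, E = (2 : ℝ) ^ p := ⟨_, rfl⟩
  have hE0 : 0 < E := by
    rw [hE]
    positivity
  refine ⟨K3 * (K1 + E + (2 + 2 * E) * K2), by positivity, ?_⟩
  intro m hm z w a hcrit ha0 ha4 hz hchi hwa hl
  obtain ⟨S, hS0, hS1, hS2, hSw⟩ := h1 m z w hcrit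
  have hm0 : (0 : ℝ) < m := by exact_mod_cast hm
  have hp0 : 0 < p := by linarith
  have hs0 : 0 < s := by linarith
  obtain ⟨aβ, haβ⟩ : ∃ aβ : ℝ, aβ = a ^ (min p 2) := ⟨_, rfl⟩
  have haβ0 : 0 ≤ aβ := by
    rw [haβ]
    exact Real.rpow_nonneg ha0 _
  set r : Fin m → ℝ := fun k => ‖w k - a‖ with hr
  have hr0 : ∀ k, 0 < r k := fun k => norm_pos_iff.2 (sub_ne_zero.2 (hwa k))
  set Θ : Fin m → ℝ := fun k => Th p s (r k) with hΘ
  set A : Fin m → ℝ := fun k => ∑ j, S k j * ‖z j - a‖ ^ p with hA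
  have hΘ0 : ∀ k, 0 ≤ Θ k := fun k => (hPT (r k) (hr0 k)).1
  have hΘ1 : ∀ k, r k < 1 / 2 → 1 ≤ K2 * Θ k := by
    intro k hk
    have h6 := (hPT (r k) (hr0 k)).2.1 (Or.inl hk)
    have h7 : 0 ≤ (r k) ^ p := Real.rpow_nonneg (hr0 k).le _
    have h8 : 0 ≤ (r k)⁻¹ ^ s := Real.rpow_nonneg (inv_nonneg.2 (hr0 k).le) _
    change 1 ≤ K2 * Th p s (r k)
    linarith
  have hb0 : ∀ k, (r k) ^ p ≤ A k := fun k =>
    breg_nonneg (h2 p hp1) (S k) z (w k) (hS0 k) (hS1 k) (hSw k)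
  -- the second moment
  have hB1 : ∑ j, ‖z j - a‖ ^ p ≤ (m + 1) * (1 + K3 * aβ) := by
    have e1 := hMO (m + 1) z (by rw [hz]; push_cast; rfl) hchi (a : ℂ) (by
      rw [Complex.norm_real, Real.norm_of_nonneg ha0]
      linarith)
    rw [Complex.norm_real, Real.norm_of_nonneg ha0, ← haβ] at e1
    push_cast at e1
    exact e1
  have hsum : ∑ k, A k = (m : ℝ) / (m + 1) * ∑ j, ‖z j - a‖ ^ p := by
    simp only [hA]
    rw [Finset.sum_comm, Finset.mul_sum]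
    refine Finset.sum_congr rfl fun j _ => ?_
    rw [← Finset.sum_mul, hS2]
  have hsumle : ∑ k, A k ≤ m * (1 + K3 * aβ) := by
    rw [hsum]
    refine (mul_le_mul_of_nonneg_left hB1 (by positivity)).trans (le_of_eq ?_)
    field_simp
  have hsumc : ∑ k, ∑ j, (S k j : ℂ) * chi p (z j) = 0 := by
    rw [Finset.sum_comm]
    have : ∀ j ∈ Finset.univ, ∑ k, (S k j : ℂ) * chi p (z j) =
        (((m : ℝ) / (m + 1) : ℝ) : ℂ) * chi p (z j) := by
      intro j _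
      rw [← Finset.sum_mul, ← hS2 j]
      push_cast
      rfl
    rw [Finset.sum_congr rfl this, ← Finset.mul_sum, hchi, mul_zero]
  -- the sum of `Θ`
  have hl' : ∑ k, (r k)⁻¹ ^ s ≤ m := by
    refine le_trans (le_of_eq ?_) hl
    refine Finset.sum_congr rfl fun k _ => ?_
    simp only [hr]
    rw [norm_inv, norm_sub_rev]
  have hrp : ∑ k, (r k) ^ p = ∑ k, Θ k + m - p / s * (∑ k, (r k)⁻¹ ^ s - m) := by
    simp only [hΘ, Th]
    rw [Finset.sum_add_distrib, Finset.sum_sub_distrib, ← Finset.mul_sum, Finset.sum_sub_distrib,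
      Finset.sum_const, Finset.card_univ, Fintype.card_fin, nsmul_eq_mul, mul_one]
    ring
  have hrp2 : ∑ k, Θ k + m ≤ ∑ k, (r k) ^ p := by
    rw [hrp]
    have : 0 ≤ p / s * (m - ∑ k, (r k)⁻¹ ^ s) := mul_nonneg (by positivity) (by linarith)
    linarith
  have htot : ∑ k, (A k - (r k) ^ p) + ∑ k, Θ k ≤ K3 * (m * aβ) := by
    rw [Finset.sum_sub_distrib]
    linarith
  -- one term
  have hD : ∀ k, ‖∑ j, (S k j : ℂ) * chi p (z j) - chi p (w k)‖ ≤
      (K1 + E + (2 + 2 * E) * K2) * ((A k - (r k) ^ p) + Θ k) := by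
    intro k
    have hbk : 0 ≤ A k - (r k) ^ p := sub_nonneg.2 (hb0 k)
    have hΘk := hΘ0 k
    rcases le_or_gt (1 / 2) (r k) with h | h
    · obtain ⟨α, β, hαβ⟩ := hBD a ha0 ha4 (w k) h
      have h6 := Pool.Agent.H376.BV.one (S k) z (w k) (hS0 k) (hS1 k) (hSw k) α β hαβ
      have h8 : 0 ≤ E + (2 + 2 * E) * K2 := by positivity
      have h7 : K1 * (A k - (r k) ^ p) ≤
          (K1 + E + (2 + 2 * E) * K2) * ((A k - (r k) ^ p) + Θ k) :=
        mul_le_mul (by linarith) (by linarith) hbk (by positivity)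
      exact h6.trans h7
    · have h6 : ‖∑ j, (S k j : ℂ) * chi p (z j)‖ ≤ (1 + E) + E * A k := by
        have h7 : ∀ j ∈ Finset.univ, ‖(S k j : ℂ) * chi p (z j)‖ ≤
            S k j * (1 + E) + E * (S k j * ‖z j - a‖ ^ p) := by
          intro j _
          rw [norm_mul, Complex.norm_real, Real.norm_of_nonneg (hS0 k j), norm_chi hp1]
          have h8 : ‖z j‖ ^ (p - 1) ≤ 1 + ‖z j‖ ^ p :=
            rpow_le_one_add (norm_nonneg _) (by linarith) (by linarith)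
          have h9 := norm_rpow_le' hp0.le ha0 (by linarith) (z j)
          rw [← hE] at h9
          have h10 : ‖z j‖ ^ (p - 1) ≤ (1 + E) + E * ‖z j - a‖ ^ p := by linarith
          calc S k j * ‖z j‖ ^ (p - 1) ≤ S k j * ((1 + E) + E * ‖z j - a‖ ^ p) :=
                mul_le_mul_of_nonneg_left h10 (hS0 k j)
            _ = S k j * (1 + E) + E * (S k j * ‖z j - a‖ ^ p) := by ring
        refine (norm_sum_le_of_le _ h7).trans (le_of_eq ?_)
        rw [Finset.sum_add_distrib, ← Finset.sum_mul, hS1, one_mul, ← Finset.mul_sum]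
      have h7 : ‖chi p (w k)‖ ≤ 1 := by
        rw [norm_chi hp1]
        refine Real.rpow_le_one (norm_nonneg _) ?_ (by linarith)
        calc ‖w k‖ = ‖(w k - a) + a‖ := by rw [sub_add_cancel]
          _ ≤ ‖w k - a‖ + ‖(a : ℂ)‖ := norm_add_le _ _
          _ ≤ 1 := by
            rw [Complex.norm_real, Real.norm_of_nonneg ha0]
            have : ‖w k - a‖ < 1 / 2 := h
            linarith
      have h8 : (r k) ^ p ≤ 1 := Real.rpow_le_one (hr0 k).le (by linarith) hp0.le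
      have h9 := hΘ1 k h
      have h10 := norm_sub_le (∑ j, (S k j : ℂ) * chi p (z j)) (chi p (w k))
      have h11 : (K1 + E + (2 + 2 * E) * K2) * ((A k - (r k) ^ p) + Θ k) =
          K1 * (A k - (r k) ^ p) + E * (A k - (r k) ^ p) +
          (2 + 2 * E) * K2 * (A k - (r k) ^ p) +
          K1 * Θ k + E * Θ k + (2 + 2 * E) * (K2 * Θ k) := by ring
      have h12 : 0 ≤ K1 * (A k - (r k) ^ p) := mul_nonneg hK1.le hbk
      have h13 : 0 ≤ (2 + 2 * E) * K2 * (A k - (r k) ^ p) := mul_nonneg (by positivity) hbk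
      have h14 : 0 ≤ K1 * Θ k := mul_nonneg hK1.le hΘk
      have h15 : 0 ≤ E * Θ k := mul_nonneg hE0.le hΘk
      have h16 : (2 + 2 * E) * 1 ≤ (2 + 2 * E) * (K2 * Θ k) :=
        mul_le_mul_of_nonneg_left h9 (by positivity)
      have h17 : E * (r k) ^ p ≤ E * 1 := mul_le_mul_of_nonneg_left h8 hE0.le
      rw [h11]
      linarith
  have e1 : ∑ k, chi p (w k) = -∑ k, (∑ j, (S k j : ℂ) * chi p (z j) - chi p (w k)) := by
    rw [Finset.sum_sub_distrib, hsumc]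
    ring
  rw [e1, norm_neg, ← haβ]
  refine (norm_sum_le_of_le _ fun k _ => hD k).trans ?_
  rw [← Finset.mul_sum, Finset.sum_add_distrib]
  calc (K1 + E + (2 + 2 * E) * K2) * (∑ k, (A k - (r k) ^ p) + ∑ k, Θ k)
      ≤ (K1 + E + (2 + 2 * E) * K2) * (K3 * (m * aβ)) :=
        mul_le_mul_of_nonneg_left htot (by positivity)
    _ = K3 * (K1 + E + (2 + 2 * E) * K2) * (m * aβ) := by ring

end Pool.Agent.H263.BV
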