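import Pool.Agent.H798.BV.Stm2

set_option autoImplicit false

/-! Borcea's `p`-variance problem, `p > 2`: end of the proof for `a ≥ 4` (helper263; adapted from
`Pool/Agent/H650/BV/C2.lean`). -/

namespace Pool.Agent.H263.BV

open Pool.Agent.H798.BV Filter Topology

theorem t_C2P : S_C2P := by
  intro p hp1 hp2 δ hδ
  have hp0 : 0 < p := by linarith
  obtain ⟨q, hq⟩ : ∃ q : ℝ, q = 2 / p := ⟨_, rfl⟩
  have hq1 : 0 < 1 - q := by
    rw [hq, sub_pos, div_lt_one hp0]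
    linarith
  have hq0 : 0 ≤ q := by
    rw [hq]
    positivity
  have T1 : Tendsto (fun m : ℕ => 16 / δ ^ 2 * (m : ℝ) ^ (-(1 - q))) atTop (𝓝 0) := by
    have := ((tendsto_rpow_neg_atTop hq1).comp tendsto_natCast_atTop_atTop).const_mul (16 / δ ^ 2)
    rwa [mul_zero] at this
  have T2 : Tendsto (fun m : ℕ => Real.exp (-(δ * m))) atTop (𝓝 0) := by
    refine Real.tendsto_exp_neg_atTop_nhds_zero.comp ?_
    exact tendsto_natCast_atTop_atTop.const_mul_atTop hδ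
  have T3 : Tendsto (fun m : ℕ => δ * (m : ℝ)) atTop atTop :=
    tendsto_natCast_atTop_atTop.const_mul_atTop hδ
  obtain ⟨M, hM⟩ := eventually_atTop.1 ((((T1.eventually_lt_const (by norm_num : (0 : ℝ) < 1 / 8)).and
    (T2.eventually_lt_const (by norm_num : (0 : ℝ) < 1 / 8))).and (T3.eventually_ge_atTop 4)).and
    (eventually_ge_atTop 2))
  refine ⟨M, fun m hm a ha hap w hw1 hl2 hwl J hJ h => ?_⟩
  obtain ⟨⟨⟨b1, b2⟩, b3⟩, b4⟩ := hM m hm
  have hm2 : (2 : ℝ) ≤ m := by exact_mod_cast b4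
  have hm0 : (0 : ℝ) < m := by linarith
  have ha0 : 0 < a := by linarith
  obtain ⟨l, hl⟩ : ∃ l : Fin m → ℂ, ∀ k, l k = ((a : ℂ) - w k)⁻¹ := ⟨_, fun _ => rfl⟩
  simp only [← hl] at h hl2
  have hne : ∀ k, (a : ℂ) - w k ≠ 0 := fun k hk => hw1 k (sub_eq_zero.1 hk).symm
  have hwl1 : ∀ k, 1 - (a : ℂ) * l k = -(w k * l k) := by
    intro k
    rw [hl]
    have := hne k
    field_simp
    ring
  have hnorm : ∀ k, ‖1 - (a : ℂ) * l k‖ = ‖w k‖ * ‖((a : ℂ) - w k)⁻¹‖ := by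
    intro k
    rw [hwl1, norm_neg, norm_mul, hl]
  have hsum : ∑ k, ‖1 - (a : ℂ) * l k‖ ≤ (1 - δ) * m := by
    simp only [hnorm]
    exact hwl
  obtain ⟨S, hS⟩ : ∃ S : ℂ, S = (∑ k, l k) / m := ⟨_, rfl⟩
  obtain ⟨V, hV⟩ : ∃ V : ℝ, V = ((∑ k, ‖l k‖ ^ 2) / m - ‖(∑ k, l k) / m‖ ^ 2) * a ^ 2 := ⟨_, rfl⟩
  -- `1 - a S`
  have h1S : ‖1 - a * S‖ ≤ 1 := by
    have e1 : (1 - a * S) = (∑ k, (1 - (a : ℂ) * l k)) / m := by
      rw [hS, Finset.sum_sub_distrib, ← Finset.mul_sum]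
      have : (m : ℂ) ≠ 0 := by exact_mod_cast hm0.ne'
      field_simp
      simp
    have e2 : ‖(∑ k, (1 - (a : ℂ) * l k)) / (m : ℂ)‖ ≤ 1 := by
      rw [norm_div, Complex.norm_natCast, div_le_one hm0]
      refine (norm_sum_le _ _).trans (hsum.trans ?_)
      nlinarith
    rw [e1]
    exact e2
  have hS2 : ‖S‖ ≤ 1 / 2 := by
    have e1 : ‖(a : ℂ) * S‖ ≤ 2 := by
      have e2 : (a : ℂ) * S = 1 - (1 - a * S) := by ring
      rw [e2]
      refine (norm_sub_le _ _).trans ?_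
      rw [norm_one]
      linarith
    rw [norm_mul, Complex.norm_real, Real.norm_eq_abs, abs_of_pos ha0] at e1
    nlinarith [norm_nonneg S]
  -- the product
  have hprod : ‖∏ k, (1 - (a : ℂ) * l k)‖ ≤ Real.exp (-(δ * m)) := by
    rw [norm_prod]
    calc ∏ k, ‖1 - (a : ℂ) * l k‖ ≤ ∏ k, Real.exp (‖1 - (a : ℂ) * l k‖ - 1) := by
          refine Finset.prod_le_prod (fun k _ => norm_nonneg _) fun k _ => ?_
          have := Real.add_one_le_exp (‖1 - (a : ℂ) * l k‖ - 1)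
          linarith
      _ = Real.exp (∑ k, (‖1 - (a : ℂ) * l k‖ - 1)) := by rw [Real.exp_sum]
      _ ≤ Real.exp (-(δ * m)) := by
          apply Real.exp_le_exp.2
          rw [Finset.sum_sub_distrib]
          simp
          linarith
  -- the variance
  have ha2 : a ^ 2 ≤ 2 * (m : ℝ) ^ q := by
    have e1 : a ^ 2 = (a ^ p) ^ q := by
      rw [← Real.rpow_mul ha0.le, hq, mul_div_cancel₀ _ hp0.ne']
      exact (Real.rpow_two a).symm
    have e2 : (a ^ p) ^ q ≤ (2 * (m : ℝ)) ^ q :=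
      Real.rpow_le_rpow (Real.rpow_nonneg ha0.le _) (hap.trans (by linarith)) hq0
    have e3 : (2 : ℝ) ^ q ≤ 2 := by
      calc (2 : ℝ) ^ q ≤ (2 : ℝ) ^ (1 : ℝ) :=
            Real.rpow_le_rpow_of_exponent_le (by norm_num) (by linarith)
        _ = 2 := Real.rpow_one 2
    rw [Real.mul_rpow (by norm_num) hm0.le] at e2
    rw [e1]
    exact e2.trans (mul_le_mul_of_nonneg_right e3 (Real.rpow_nonneg hm0.le _))
  have hVle : V ≤ 2 * (m : ℝ) ^ q := by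
    rw [hV]
    refine le_trans ?_ ha2
    have e1 : (∑ k, ‖l k‖ ^ 2) / m ≤ 1 := (div_le_one hm0).2 hl2
    have e2 : 0 ≤ ‖(∑ k, l k) / (m : ℂ)‖ ^ 2 := by positivity
    have e3 : 0 ≤ a ^ 2 := by positivity
    nlinarith
  have hmq : 0 ≤ (m : ℝ) ^ q := Real.rpow_nonneg hm0.le _
  -- the right side
  have hR : ((∑ k, ‖l k‖ ^ 2) / m - ‖(∑ k, l k) / m‖ ^ 2) * a ^ 2
        * (m - 2) ^ 2 / ((m * δ - 2) ^ 2 * (m - 1)) ≤ 1 / 8 := by
    rw [← hV]
    refine le_trans ?_ b1.le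
    have e1 : 0 < m * δ - 2 := by linarith
    have e2 : δ * m / 2 ≤ m * δ - 2 := by linarith
    have e3 : 0 < (m : ℝ) - 1 := by linarith
    have e4 : (m : ℝ) ^ (-(1 - q)) = (m : ℝ) ^ q / m := by
      rw [← Real.rpow_sub_one hm0.ne']
      congr 1
      ring
    rw [e4, div_mul_div_comm, div_le_div_iff₀ (by positivity) (by positivity)]
    have f1 : V * ((m : ℝ) - 2) ^ 2 ≤ 2 * (m : ℝ) ^ q * m ^ 2 := by
      refine mul_le_mul hVle ?_ (by positivity) (by positivity)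
      nlinarith
    have f2 : (δ * m / 2) ^ 2 * (m / 2) ≤ (m * δ - 2) ^ 2 * (m - 1) := by
      refine mul_le_mul ?_ (by linarith) (by positivity) (by positivity)
      exact pow_le_pow_left₀ (by positivity) e2 2
    calc V * ((m : ℝ) - 2) ^ 2 * (δ ^ 2 * m) ≤ (2 * (m : ℝ) ^ q * m ^ 2) * (δ ^ 2 * m) :=
          mul_le_mul_of_nonneg_right f1 (by positivity)
      _ = 16 * (m : ℝ) ^ q * ((δ * m / 2) ^ 2 * (m / 2)) := by ring
      _ ≤ 16 * (m : ℝ) ^ q * ((m * δ - 2) ^ 2 * (m - 1)) :=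
          mul_le_mul_of_nonneg_left f2 (by positivity)
  -- conclusion
  have h2 := h.trans hR
  rw [← hS] at h2
  have h3 : ‖S * J‖ ≤ 1 / 2 := by
    rw [norm_mul]
    nlinarith [norm_nonneg S, norm_nonneg J]
  have h4 : ‖(1 - a * S) * ∏ k, (1 - (a : ℂ) * l k)‖ ≤ 1 / 8 := by
    rw [norm_mul]
    calc ‖1 - a * S‖ * ‖∏ k, (1 - (a : ℂ) * l k)‖ ≤ 1 * Real.exp (-(δ * m)) :=
          mul_le_mul h1S hprod (norm_nonneg _) zero_le_one
      _ ≤ 1 / 8 := by linarith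
  have h6 : ‖(1 : ℂ)‖ ≤ ‖S * J‖ + ‖(1 - a * S) * ∏ k, (1 - (a : ℂ) * l k)‖ +
      ‖S * J - 1 + (1 - a * S) * ∏ k, (1 - (a : ℂ) * l k)‖ := by
    have e1 := norm_sub_le (S * J + (1 - a * S) * ∏ k, (1 - (a : ℂ) * l k))
      (S * J - 1 + (1 - a * S) * ∏ k, (1 - (a : ℂ) * l k))
    have e2 := norm_add_le (S * J) ((1 - a * S) * ∏ k, (1 - (a : ℂ) * l k))
    have e3 : (S * J + (1 - a * S) * ∏ k, (1 - (a : ℂ) * l k)) -
      (S * J - 1 + (1 - a * S) * ∏ k, (1 - (a : ℂ) * l k)) = 1 := by ring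
    rw [e3] at e1
    linarith
  rw [norm_one] at h6
  linarith

end Pool.Agent.H263.BV
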